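import Pool.Agent.R251.Cmp.Set

set_option autoImplicit false

/-! Coverings by balls of equal radii. -/

open MeasureTheory Set Filter Topology Metric
open scoped ENNReal

namespace Pool.Agent.R251.Cmp

variable {n : ℕ}

theorem sep_card {K : Set (E n)} {δ : ℝ} (hδ : 0 < δ) (F : Finset (E n)) (hF : ∀ x ∈ F, x ∈ K)
    (hs : ∀ x ∈ F, ∀ y ∈ F, x ≠ y → δ ≤ dist x y) :
    (F.card : ℝ≥0∞) * (ENNReal.ofReal ((δ / 2) ^ n) * volume (ball (0 : E n) 1)) ≤
      volume (thickening δ K) := by
  have h1 : ∀ x : E n, volume (ball x (δ / 2)) =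
      ENNReal.ofReal ((δ / 2) ^ n) * volume (ball (0 : E n) 1) := by
    intro x
    rw [Measure.addHaar_ball_of_pos _ _ (by positivity)]
    simp
  have h2 : (PairwiseDisjoint (F : Set (E n)) fun x => ball x (δ / 2)) := by
    intro x hx y hy hxy
    apply ball_disjoint_ball
    have := hs x hx y hy hxy
    linarith
  calc (F.card : ℝ≥0∞) * (ENNReal.ofReal ((δ / 2) ^ n) * volume (ball (0 : E n) 1))
      = ∑ x ∈ F, volume (ball x (δ / 2)) := by
        simp only [h1]
        rw [Finset.sum_const, nsmul_eq_mul]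
    _ = volume (⋃ x ∈ F, ball x (δ / 2)) :=
        (measure_biUnion_finset h2 fun x _ => measurableSet_ball).symm
    _ ≤ _ := by
        apply measure_mono
        intro y hy
        simp only [mem_iUnion] at hy
        obtain ⟨x, hx, hxy⟩ := hy
        rw [mem_thickening_iff]
        refine ⟨x, hF x hx, ?_⟩
        rw [mem_ball] at hxy
        linarith

/-- Coverings by balls of radius `δ`. -/
theorem exists_cover {K : Set (E n)} {δ V : ℝ} (hδ : 0 < δ) (hV : 0 ≤ V)
    (hK : volume (thickening δ K) ≤ ENNReal.ofReal V) :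
    ∃ F : Finset (E n), K ⊆ ⋃ x ∈ F, closedBall x δ ∧
      (F.card : ℝ) * ((δ / 2) ^ n * (volume (ball (0 : E n) 1)).toReal) ≤ V := by
  classical
  set w := (volume (ball (0 : E n) 1)).toReal with hw
  have hwt : volume (ball (0 : E n) 1) ≠ ∞ := measure_ball_lt_top.ne
  have hw0 : 0 < w := ENNReal.toReal_pos (measure_ball_pos volume _ one_pos).ne' hwt
  have key : ∀ F : Finset (E n), (∀ x ∈ F, x ∈ K) →
      (∀ x ∈ F, ∀ y ∈ F, x ≠ y → δ ≤ dist x y) →
      (F.card : ℝ) * ((δ / 2) ^ n * w) ≤ V := by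
    intro F hF hs
    have h1 := (sep_card hδ F hF hs).trans hK
    have h2 : (F.card : ℝ≥0∞) * (ENNReal.ofReal ((δ / 2) ^ n) * volume (ball (0 : E n) 1)) =
        ENNReal.ofReal ((F.card : ℝ) * ((δ / 2) ^ n * w)) := by
      rw [ENNReal.ofReal_mul (by positivity), ENNReal.ofReal_mul (by positivity), hw,
        ENNReal.ofReal_toReal hwt, ENNReal.ofReal_natCast]
    rw [h2] at h1
    exact (ENNReal.ofReal_le_ofReal_iff hV).1 h1
  set S : Set ℕ := {k | ∃ F : Finset (E n), (∀ x ∈ F, x ∈ K) ∧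
      (∀ x ∈ F, ∀ y ∈ F, x ≠ y → δ ≤ dist x y) ∧ F.card = k} with hS
  have hne : S.Nonempty := ⟨0, ∅, by simp, by simp, by simp⟩
  have hc : 0 < (δ / 2) ^ n * w := by positivity
  have hbdd : BddAbove S := by
    refine ⟨⌈V / ((δ / 2) ^ n * w)⌉₊, ?_⟩
    rintro k ⟨F, hF, hs, rfl⟩
    have h1 := key F hF hs
    rw [← le_div_iff₀ hc] at h1
    exact_mod_cast h1.trans (Nat.le_ceil _)
  obtain ⟨F, hF, hs, hk⟩ := Nat.sSup_mem hne hbdd
  refine ⟨F, ?_, key F hF hs⟩
  intro y hy
  by_contra hcon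
  simp only [mem_iUnion, mem_closedBall, not_exists, not_le] at hcon
  have hyF : y ∉ F := by
    intro h
    have := hcon y h
    rw [dist_self] at this
    linarith
  have h1 : (insert y F).card ∈ S := by
    refine ⟨insert y F, ?_, ?_, rfl⟩
    · intro x hx
      rcases Finset.mem_insert.1 hx with rfl | hx
      · exact hy
      · exact hF x hx
    · intro x hx z hz hxz
      rcases Finset.mem_insert.1 hx with h1 | h1
      · rcases Finset.mem_insert.1 hz with h2 | h2
        · exact absurd (h1.trans h2.symm) hxz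
        · rw [h1]; exact (hcon z h2).le
      · rcases Finset.mem_insert.1 hz with h2 | h2
        · rw [h2, dist_comm]; exact (hcon x h1).le
        · exact hs x h1 z h2 hxz
  have h2 := le_csSup hbdd h1
  rw [Finset.card_insert_of_notMem hyF] at h2
  omega

end Pool.Agent.R251.Cmp
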