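import Mathlib

set_option autoImplicit false

/-! Compression of Kakeya sets: the one-dimensional slices. -/

open MeasureTheory Set Filter Topology

namespace Pool.Agent.R251.Cmp

noncomputable def tau (s : ℝ) : ℝ := 2 * Real.sin (2 * Real.pi * Real.log s)

theorem tau_abs (s : ℝ) : |tau s| ≤ 2 := by
  unfold tau
  rw [abs_mul, abs_two]
  have := Real.abs_sin_le_one (2 * Real.pi * Real.log s)
  linarith

theorem log_lip {J s s' : ℝ} (hJ : 0 < J) (hs : J ≤ s) (h : s ≤ s') :
    |Real.log s' - Real.log s| ≤ (s' - s) / J := by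
  have hs0 : 0 < s := by linarith
  have hs'0 : 0 < s' := by linarith
  rw [abs_of_nonneg (sub_nonneg.2 (Real.log_le_log hs0 h)), ← Real.log_div hs'0.ne' hs0.ne']
  have h1 := Real.log_le_sub_one_of_pos (show 0 < s' / s by positivity)
  have h2 : s' / s - 1 = (s' - s) / s := by field_simp
  rw [h2] at h1
  refine h1.trans ?_
  exact div_le_div_of_nonneg_left (by linarith) hJ hs

theorem tau_lip {J s s' : ℝ} (hJ : 0 < J) (hs : J ≤ s) (h : s ≤ s') :
    |tau s' - tau s| ≤ 4 * Real.pi / J * (s' - s) := by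
  have h1 := log_lip hJ hs h
  unfold tau
  have h2 : |Real.sin (2 * Real.pi * Real.log s') - Real.sin (2 * Real.pi * Real.log s)| ≤
      |2 * Real.pi * Real.log s' - 2 * Real.pi * Real.log s| := by
    have h3 := Real.sin_sub_sin (2 * Real.pi * Real.log s') (2 * Real.pi * Real.log s)
    rw [h3]
    set u := (2 * Real.pi * Real.log s' - 2 * Real.pi * Real.log s) / 2 with hu
    have h4 : |Real.sin u| ≤ |u| := by
      rcases le_total 0 u with h0 | h0
      · rw [abs_of_nonneg h0]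
        rw [abs_le]
        constructor
        · have := Real.sin_le h0
          by_contra hc
          push Not at hc
          have h5 : Real.sin (-u) ≥ u := by rw [Real.sin_neg]; linarith
          rcases eq_or_lt_of_le h0 with h6 | h6
          · rw [← h6] at hc; simp at hc
          · rcases le_total u Real.pi with h7 | h7
            · have := Real.sin_nonneg_of_nonneg_of_le_pi h0 h7
              linarith
            · have := Real.neg_one_le_sin u
              have := Real.pi_gt_three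
              linarith
        · exact Real.sin_le h0
      · rw [abs_of_nonpos h0]
        have h0' : 0 ≤ -u := by linarith
        rw [abs_le]
        constructor
        · have := Real.sin_le h0'
          rw [Real.sin_neg] at this
          linarith
        · rcases eq_or_lt_of_le h0' with h6 | h6
          · have : u = 0 := by linarith
            rw [this]; simp
          · rcases le_total (-u) Real.pi with h7 | h7
            · have := Real.sin_nonneg_of_nonneg_of_le_pi h0' h7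
              rw [Real.sin_neg] at this
              linarith
            · have := Real.sin_le_one u
              have := Real.pi_gt_three
              linarith
    have h5 : |Real.cos ((2 * Real.pi * Real.log s' + 2 * Real.pi * Real.log s) / 2)| ≤ 1 :=
      Real.abs_cos_le_one _
    rw [abs_mul, abs_mul, abs_two]
    have h6 : |2 * Real.pi * Real.log s' - 2 * Real.pi * Real.log s| = 2 * |u| := by
      rw [hu, abs_div, abs_two]; ring
    rw [h6]
    have h7 := abs_nonneg (Real.sin u)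
    nlinarith
  have h3 : |2 * Real.sin (2 * Real.pi * Real.log s') - 2 * Real.sin (2 * Real.pi * Real.log s)| =
      2 * |Real.sin (2 * Real.pi * Real.log s') - Real.sin (2 * Real.pi * Real.log s)| := by
    rw [← mul_sub, abs_mul, abs_two]
  rw [h3]
  have h4 : |2 * Real.pi * Real.log s' - 2 * Real.pi * Real.log s| =
      2 * Real.pi * |Real.log s' - Real.log s| := by
    rw [← mul_sub, abs_mul, abs_of_pos (by positivity)]
  rw [h4] at h2
  have hpi := Real.pi_pos
  calc 2 * |Real.sin (2 * Real.pi * Real.log s') - Real.sin (2 * Real.pi * Real.log s)|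
      ≤ 2 * (2 * Real.pi * ((s' - s) / J)) := by
        have := mul_le_mul_of_nonneg_left h1 (show 0 ≤ 2 * Real.pi by positivity)
        linarith
    _ = _ := by ring

theorem tau_surj {J t : ℝ} (hJ : 0 < J) (ht : |t| ≤ 2) :
    ∃ s, J ≤ s ∧ s ≤ Real.exp 1 * J ∧ tau s = t := by
  have hpi := Real.pi_pos
  have ht2 := abs_le.1 ht
  set φ := Real.arcsin (t / 2) with hφ
  have hφs : Real.sin φ = t / 2 := Real.sin_arcsin (by linarith) (by linarith)
  set k : ℤ := ⌈Real.log J - φ / (2 * Real.pi)⌉ with hk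
  have h1 : Real.log J - φ / (2 * Real.pi) ≤ k := Int.le_ceil _
  have h2 : (k : ℝ) < Real.log J - φ / (2 * Real.pi) + 1 := Int.ceil_lt_add_one _
  refine ⟨Real.exp (φ / (2 * Real.pi) + k), ?_, ?_, ?_⟩
  · calc J = Real.exp (Real.log J) := (Real.exp_log hJ).symm
      _ ≤ _ := Real.exp_le_exp.2 (by linarith)
  · calc Real.exp (φ / (2 * Real.pi) + k) ≤ Real.exp (1 + Real.log J) := Real.exp_le_exp.2 (by linarith)
      _ = _ := by rw [Real.exp_add, Real.exp_log hJ]
  · unfold tau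
    rw [Real.log_exp]
    have e : 2 * Real.pi * (φ / (2 * Real.pi) + k) = φ + k * (2 * Real.pi) := by
      field_simp
    rw [e, Real.sin_add_int_mul_two_pi, hφs]
    ring

theorem exists_index {J t : ℝ} (hJ : 0 < J) (ht : |t| ≤ 2) :
    ∃ j : ℕ, (j : ℝ) ≤ Real.exp 1 * J + 1 ∧
      ∀ i : ℕ, |t - tau ((i + j : ℕ) : ℝ)| ≤ 4 * Real.pi / J * (i + 1) := by
  obtain ⟨s, hs1, hs2, hs3⟩ := tau_surj hJ ht
  have hs0 : 0 ≤ s := by linarith
  refine ⟨⌈s⌉₊, ?_, ?_⟩
  · have := Nat.ceil_lt_add_one hs0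
    linarith
  · intro i
    have h1 : s ≤ (⌈s⌉₊ : ℝ) := Nat.le_ceil s
    have h2 := Nat.ceil_lt_add_one hs0
    have h3 : s ≤ ((i + ⌈s⌉₊ : ℕ) : ℝ) := by
      push_cast
      have : (0:ℝ) ≤ i := Nat.cast_nonneg i
      linarith
    have h4 := tau_lip hJ hs1 h3
    rw [hs3, abs_sub_comm] at h4
    refine h4.trans ?_
    have hpi := Real.pi_pos
    apply mul_le_mul_of_nonneg_left _ (by positivity)
    push_cast
    linarith

/-- The sign of a digit. -/
def sg (x : Fin 2) : ℝ := 2 * (x : ℕ) - 1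

theorem sg_abs (x : Fin 2) : |sg x| = 1 := by
  unfold sg
  fin_cases x <;> simp
  norm_num

theorem sg_cont : Continuous sg := continuous_of_discreteTopology

/-- The velocity. -/
noncomputable def V (b : ℕ → Fin 2) : ℝ := ∑' m : ℕ, sg (b m) * (1 / 2) ^ (m + 1)

/-- The negative of the position. -/
noncomputable def A (b : ℕ → Fin 2) : ℝ := ∑' m : ℕ, tau m * sg (b m) * (1 / 2) ^ (m + 1)

theorem geo_summable : Summable (fun m : ℕ => (1 / 2 : ℝ) ^ (m + 1)) := by
  have h := (summable_geometric_of_lt_one (r := (1/2 : ℝ)) (by norm_num) (by norm_num)).mul_right (1/2 : ℝ)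
  exact h.congr fun m => by rw [pow_succ]

theorem geo_sum : ∑' m : ℕ, (1 / 2 : ℝ) ^ (m + 1) = 1 := by
  have h : ∀ m : ℕ, (1 / 2 : ℝ) ^ (m + 1) = (1/2 : ℝ) ^ m * (1/2) := fun m => pow_succ _ _
  simp only [h]
  rw [tsum_mul_right, tsum_geometric_of_lt_one (by norm_num) (by norm_num)]
  norm_num

theorem V_summable (b : ℕ → Fin 2) : Summable (fun m : ℕ => sg (b m) * (1 / 2 : ℝ) ^ (m + 1)) := by
  apply Summable.of_norm_bounded geo_summable
  intro m
  rw [norm_mul, Real.norm_eq_abs, sg_abs, one_mul, norm_pow]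
  norm_num

theorem A_summable (b : ℕ → Fin 2) :
    Summable (fun m : ℕ => tau m * sg (b m) * (1 / 2 : ℝ) ^ (m + 1)) := by
  apply Summable.of_norm_bounded (geo_summable.mul_left 2)
  intro m
  rw [norm_mul, norm_mul, Real.norm_eq_abs, Real.norm_eq_abs, sg_abs, mul_one, norm_pow]
  have := tau_abs m
  have h2 : ‖(1/2 : ℝ)‖ = 1/2 := by norm_num
  rw [h2]
  gcongr

theorem V_cont : Continuous V := by
  unfold V
  refine continuous_tsum (u := fun m => (1/2 : ℝ) ^ (m + 1)) ?_ geo_summable ?_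
  · intro m
    exact (sg_cont.comp (continuous_apply m)).mul continuous_const
  · intro m b
    rw [norm_mul, Real.norm_eq_abs, sg_abs, one_mul, norm_pow]
    norm_num

theorem A_cont : Continuous A := by
  unfold A
  refine continuous_tsum (u := fun m => 2 * (1/2 : ℝ) ^ (m + 1)) ?_ (geo_summable.mul_left 2) ?_
  · intro m
    exact (continuous_const.mul (sg_cont.comp (continuous_apply m))).mul continuous_const
  · intro m b
    rw [norm_mul, norm_mul, Real.norm_eq_abs, Real.norm_eq_abs, sg_abs, mul_one, norm_pow]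
    have := tau_abs m
    have h2 : ‖(1/2 : ℝ)‖ = 1/2 := by norm_num
    rw [h2]
    gcongr

theorem V_eq (b : ℕ → Fin 2) : V b = 2 * Real.ofDigits b - 1 := by
  unfold V Real.ofDigits
  have h1 : ∀ m : ℕ, sg (b m) * (1 / 2 : ℝ) ^ (m + 1) =
      2 * Real.ofDigitsTerm b m - (1/2 : ℝ) ^ (m + 1) := by
    intro m
    unfold sg Real.ofDigitsTerm
    push_cast
    rw [one_div, inv_pow]
    ring
  simp only [h1]
  rw [Summable.tsum_sub (Real.summable_ofDigitsTerm.mul_left 2) geo_summable, tsum_mul_left, geo_sum]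

theorem V_abs (b : ℕ → Fin 2) : |V b| ≤ 1 := by
  rw [V_eq, abs_le]
  have h1 := Real.ofDigits_nonneg b
  have h2 := Real.ofDigits_le_one b
  constructor <;> linarith

theorem V_surj {v : ℝ} (hv : |v| ≤ 1) : ∃ b, V b = v := by
  have hv2 := abs_le.1 hv
  obtain ⟨b, -, hb⟩ := Real.ofDigits_SurjOn (b := 2) (by norm_num)
    (show (v + 1) / 2 ∈ Icc (0:ℝ) 1 from ⟨by linarith, by linarith⟩)
  refine ⟨b, ?_⟩
  rw [V_eq, hb]
  ring

/-- The point number `b` at the time `t`. -/
noncomputable def f (b : ℕ → Fin 2) (t : ℝ) : ℝ := t * V b - A b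

theorem f_cont : Continuous (fun p : (ℕ → Fin 2) × ℝ => f p.1 p.2) := by
  unfold f
  exact (continuous_snd.mul (V_cont.comp continuous_fst)).sub (A_cont.comp continuous_fst)

theorem f_eq (b : ℕ → Fin 2) (t : ℝ) :
    HasSum (fun m : ℕ => (t - tau m) * sg (b m) * (1 / 2 : ℝ) ^ (m + 1)) (f b t) := by
  have h := ((V_summable b).hasSum.mul_left t).sub (A_summable b).hasSum
  unfold f
  have e : (fun m : ℕ => (t - tau m) * sg (b m) * (1 / 2 : ℝ) ^ (m + 1)) =
      fun m : ℕ => t * (sg (b m) * (1 / 2 : ℝ) ^ (m + 1)) - tau m * sg (b m) * (1 / 2 : ℝ) ^ (m + 1) := by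
    funext m; ring
  rw [e]
  exact h

theorem tail {J t : ℝ} (hJ : 0 < J) {j : ℕ}
    (hj : ∀ i : ℕ, |t - tau ((i + j : ℕ) : ℝ)| ≤ 4 * Real.pi / J * (i + 1)) (b : ℕ → Fin 2) :
    |f b t - ∑ m ∈ Finset.range j, (t - tau m) * sg (b m) * (1 / 2 : ℝ) ^ (m + 1)| ≤
      16 * Real.pi / J * (1 / 2) ^ j := by
  have hpi := Real.pi_pos
  have h0 := f_eq b t
  have h1 := h0.summable.sum_add_tsum_nat_add j
  rw [h0.tsum_eq] at h1
  rw [← h1, add_sub_cancel_left]
  have hb : ∀ i : ℕ, ‖(t - tau ((i + j : ℕ) : ℝ)) * sg (b (i + j)) * (1 / 2 : ℝ) ^ (i + j + 1)‖ ≤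
      4 * Real.pi / J * (1 / 2) ^ j * (3 / 4) ^ i := by
    intro i
    rw [norm_mul, norm_mul, Real.norm_eq_abs, Real.norm_eq_abs, sg_abs, mul_one, norm_pow]
    have h2 : ‖(1/2 : ℝ)‖ = 1/2 := by norm_num
    rw [h2]
    have h3 : ((i : ℝ) + 1) * (1 / 2) ^ (i + 1) ≤ (3 / 4) ^ i := by
      have h4 : (1 : ℝ) + i * (1 / 2) ≤ (1 + 1 / 2) ^ i := one_add_mul_le_pow (by norm_num) i
      have h5 : (3 / 4 : ℝ) ^ i = (1 + 1/2) ^ i * (1/2) ^ i := by rw [← mul_pow]; norm_num
      rw [h5, pow_succ]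
      have h6 : (0:ℝ) < (1/2 : ℝ) ^ i := by positivity
      have h7 : ((i : ℝ) + 1) / 2 ≤ (1 + 1/2) ^ i := by linarith
      nlinarith
    calc |t - tau ((i + j : ℕ) : ℝ)| * (1 / 2) ^ (i + j + 1)
        ≤ 4 * Real.pi / J * (i + 1) * (1 / 2) ^ (i + j + 1) := by
          gcongr
          exact hj i
      _ = 4 * Real.pi / J * (1 / 2) ^ j * (((i : ℝ) + 1) * (1 / 2) ^ (i + 1)) := by ring
      _ ≤ _ := by gcongr
  have hs : Summable (fun i : ℕ => 4 * Real.pi / J * (1 / 2) ^ j * (3 / 4 : ℝ) ^ i) :=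
    (summable_geometric_of_lt_one (by norm_num) (by norm_num)).mul_left _
  have h2 := tsum_of_norm_bounded (hs.hasSum) hb
  rw [Real.norm_eq_abs, tsum_mul_left, tsum_geometric_of_lt_one (by norm_num) (by norm_num)] at h2
  refine h2.trans (le_of_eq ?_)
  ring

/-- The slice is covered by few intervals. -/
theorem slice_vol {J t : ℝ} (hJ : 0 < J) {j : ℕ}
    (hj : ∀ i : ℕ, |t - tau ((i + j : ℕ) : ℝ)| ≤ 4 * Real.pi / J * (i + 1)) (ρ : ℝ) :
    volume {y : ℝ | ∃ b, |y - f b t| ≤ ρ} ≤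
      ENNReal.ofReal (2 ^ j * (2 * ρ) + 32 * Real.pi / J) := by
  classical
  set r : ℝ := ρ + 16 * Real.pi / J * (1 / 2) ^ j with hr
  have hsub : {y : ℝ | ∃ b, |y - f b t| ≤ ρ} ⊆ ⋃ c : Fin j → Fin 2,
      Icc ((∑ m : Fin j, (t - tau m) * sg (c m) * (1 / 2 : ℝ) ^ ((m : ℕ) + 1)) - r)
        ((∑ m : Fin j, (t - tau m) * sg (c m) * (1 / 2 : ℝ) ^ ((m : ℕ) + 1)) + r) := by
    rintro y ⟨b, hb⟩
    rw [mem_iUnion]
    refine ⟨fun m => b m, ?_⟩
    have h1 := tail hJ hj b
    rw [Finset.sum_range (fun m => (t - tau m) * sg (b m) * (1 / 2 : ℝ) ^ (m + 1))] at h1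
    have h2 := abs_le.1 hb
    have h3 := abs_le.1 h1
    rw [mem_Icc]
    constructor
    · rw [hr]; linarith
    · rw [hr]; linarith
  refine (measure_mono hsub).trans ((measure_iUnion_fintype_le _ _).trans ?_)
  simp only [Real.volume_Icc]
  have e : ∀ c : Fin j → Fin 2,
      (∑ m : Fin j, (t - tau m) * sg (c m) * (1 / 2 : ℝ) ^ ((m : ℕ) + 1)) + r -
      ((∑ m : Fin j, (t - tau m) * sg (c m) * (1 / 2 : ℝ) ^ ((m : ℕ) + 1)) - r) = 2 * r := by
    intro c; ring
  simp only [e]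
  rw [Finset.sum_const, Finset.card_univ, Fintype.card_fun, Fintype.card_fin, Fintype.card_fin,
    nsmul_eq_mul]
  push_cast
  have e2 : (2 : ENNReal) ^ j = ENNReal.ofReal (2 ^ j) := by
    rw [ENNReal.ofReal_pow (by norm_num)]
    norm_num
  rw [e2, ← ENNReal.ofReal_mul (by positivity)]
  apply ENNReal.ofReal_le_ofReal
  rw [hr]
  have e3 : (2 : ℝ) ^ j * (1 / 2) ^ j = 1 := by rw [← mul_pow]; norm_num
  have e4 : (2 : ℝ) ^ j * (2 * (ρ + 16 * Real.pi / J * (1 / 2) ^ j)) =
      2 ^ j * (2 * ρ) + 32 * Real.pi / J * (2 ^ j * (1 / 2) ^ j) := by ring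
  rw [e4, e3, mul_one]

/-- The slices of the `2δ`-neighbourhood are small at all times in `[-2, 2]`. -/
theorem slice_small {δ t : ℝ} (hδ : 0 < δ) (hδ1 : δ < 1) (ht : |t| ≤ 2) :
    volume {y : ℝ | ∃ b, |y - f b t| ≤ 2 * δ} ≤ ENNReal.ofReal (1000 / Real.log (1 / δ)) := by
  set L := Real.log (1 / δ) with hL
  have hL0 : 0 < L := Real.log_pos (by rw [lt_div_iff₀ hδ]; linarith)
  set J := 1 + L / 8 with hJ
  have hJ0 : 0 < J := by positivity
  obtain ⟨j, hj1, hj2⟩ := exists_index hJ0 ht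
  refine (slice_vol hJ0 hj2 (2 * δ)).trans (ENNReal.ofReal_le_ofReal ?_)
  have hδe : δ = Real.exp (-L) := by
    rw [hL, one_div, Real.log_inv, neg_neg, Real.exp_log hδ]
  have hlog2 : Real.log 2 ≤ 0.6931471808 := Real.log_two_lt_d9.le
  have hlog20 : 0 < Real.log 2 := Real.log_pos (by norm_num)
  have he : Real.exp 1 ≤ 2.7182818286 := Real.exp_one_lt_d9.le
  have he0 : 0 < Real.exp 1 := Real.exp_pos 1
  have h2j : (2:ℝ) ^ j ≤ Real.exp (3 + L / 4) := by
    have h1 : (2:ℝ) ^ j = Real.exp (j * Real.log 2) := by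
      rw [Real.exp_nat_mul, Real.exp_log (by norm_num)]
    rw [h1]
    apply Real.exp_le_exp.2
    have h3 : (j : ℝ) * Real.log 2 ≤ (Real.exp 1 * J + 1) * Real.log 2 :=
      mul_le_mul_of_nonneg_right hj1 hlog20.le
    have h4 : (Real.exp 1 * J + 1) * Real.log 2 ≤ (2.7182818286 * J + 1) * 0.6931471808 := by
      apply mul_le_mul _ hlog2 hlog20.le (by positivity)
      have := mul_le_mul_of_nonneg_right he hJ0.le
      linarith
    have h5 : (2.7182818286 * J + 1) * 0.6931471808 ≤ 3 + L / 4 := by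
      rw [hJ]
      nlinarith
    linarith
  have h3 : (2:ℝ) ^ j * (2 * (2 * δ)) ≤ 4 * Real.exp 3 * (4 / 3 / L) := by
    have h4 : (2:ℝ) ^ j * δ ≤ Real.exp 3 * Real.exp (-(3 * L / 4)) := by
      rw [hδe]
      calc (2:ℝ) ^ j * Real.exp (-L) ≤ Real.exp (3 + L / 4) * Real.exp (-L) := by gcongr
        _ = _ := by rw [← Real.exp_add, ← Real.exp_add]; congr 1; ring
    have h5 : Real.exp (-(3 * L / 4)) ≤ 4 / 3 / L := by
      rw [Real.exp_neg]
      have h6 := Real.add_one_le_exp (3 * L / 4)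
      rw [inv_le_comm₀ (Real.exp_pos _) (by positivity)]
      have h7 : (4 / 3 / L)⁻¹ = 3 * L / 4 := by field_simp
      rw [h7]
      linarith
    have h6 : Real.exp 3 * Real.exp (-(3 * L / 4)) ≤ Real.exp 3 * (4 / 3 / L) :=
      mul_le_mul_of_nonneg_left h5 (Real.exp_pos 3).le
    linarith
  have h4 : 32 * Real.pi / J ≤ 256 * Real.pi / L := by
    rw [div_le_div_iff₀ hJ0 hL0, hJ]
    have hpi := Real.pi_pos
    nlinarith
  have h5 : Real.exp 3 ≤ 20.1 := by
    have h6 : Real.exp 3 = Real.exp 1 ^ 3 := by rw [← Real.exp_nat_mul]; norm_num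
    rw [h6]
    calc Real.exp 1 ^ 3 ≤ 2.7182818286 ^ 3 := by gcongr
      _ ≤ 20.1 := by norm_num
  have hpi := Real.pi_lt_d2
  calc (2:ℝ) ^ j * (2 * (2 * δ)) + 32 * Real.pi / J
      ≤ 4 * Real.exp 3 * (4 / 3 / L) + 256 * Real.pi / L := add_le_add h3 h4
    _ = (16 / 3 * Real.exp 3 + 256 * Real.pi) / L := by field_simp; ring
    _ ≤ 1000 / L := by
        gcongr
        nlinarith

end Pool.Agent.R251.Cmp
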