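import Pool.Agent.R251.Cmp.Dig

set_option autoImplicit false

/-! Compression of Kakeya sets: the set in `ℝ^n`. -/

open MeasureTheory Set Filter Topology Metric

namespace Pool.Agent.R251.Cmp

/-- The space. -/
abbrev E (n : ℕ) : Type := EuclideanSpace ℝ (Fin n)

/-- The point number `b` of height `t` in the direction of the axis number `i`. -/
noncomputable def pt {n : ℕ} (i : Fin n) (b : Fin n → ℕ → Fin 2) (t : ℝ) : E n :=
  WithLp.toLp 2 (fun j => if j = i then t else f (b j) t)

theorem pt_cont {n : ℕ} (i : Fin n) :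
    Continuous (fun p : (Fin n → ℕ → Fin 2) × ℝ => pt i p.1 p.2) := by
  unfold pt
  apply (PiLp.continuous_toLp 2 _).comp
  rw [continuous_pi_iff]
  intro j
  by_cases h : j = i
  · simp only [h, if_true]
    exact continuous_snd
  · simp only [h, if_false]
    have h1 : Continuous (fun p : (Fin n → ℕ → Fin 2) × ℝ => p.1 j) :=
      (continuous_apply j).comp continuous_fst
    exact f_cont.comp (h1.prodMk continuous_snd)

/-- The part of the Kakeya set that belongs to the axis number `i`. -/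
def part {n : ℕ} (i : Fin n) : Set (E n) :=
  (fun p : (Fin n → ℕ → Fin 2) × ℝ => pt i p.1 p.2) '' (univ ×ˢ Icc (-1) 1)

/-- The Kakeya set. -/
def K (n : ℕ) : Set (E n) := ⋃ i, part i

theorem K_compact (n : ℕ) : IsCompact (K n) := by
  apply isCompact_iUnion
  intro i
  exact (isCompact_univ.prod isCompact_Icc).image (pt_cont i)

theorem K_segments {n : ℕ} (hn : 1 ≤ n) (e : E n) (he : ‖e‖ = 1) :
    ∃ a : E n, ∀ t ∈ Icc (0:ℝ) 1, a + t • e ∈ K n := by
  have : Nonempty (Fin n) := ⟨⟨0, hn⟩⟩
  obtain ⟨i, hi⟩ := Finite.exists_max (fun j => |e j|)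
  have hi0 : 0 < |e i| := by
    by_contra h
    push Not at h
    have h0 : e = 0 := by
      ext j
      have h1 := hi j
      have h2 := abs_nonneg (e j)
      have h3 : |e j| = 0 := by linarith
      simpa using h3
    rw [h0, norm_zero] at he
    norm_num at he
  have hi1 : |e i| ≤ 1 := by
    have := PiLp.norm_apply_le e i
    rwa [Real.norm_eq_abs, he] at this
  have hne : e i ≠ 0 := abs_pos.1 hi0
  have hv : ∀ j, |e j / e i| ≤ 1 := by
    intro j
    rw [abs_div, div_le_one hi0]
    exact hi j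
  choose b hb using fun j => V_surj (hv j)
  refine ⟨pt i b 0, ?_⟩
  intro t ht
  unfold K
  rw [mem_iUnion]
  refine ⟨i, ⟨(b, t * e i), ⟨mem_univ _, ?_⟩, ?_⟩⟩
  · have h1 : |t * e i| ≤ 1 := by
      rw [abs_mul, abs_of_nonneg ht.1]
      nlinarith [ht.2, ht.1]
    exact abs_le.1 h1
  · ext j
    simp only [pt, PiLp.add_apply, PiLp.smul_apply, smul_eq_mul]
    by_cases h : j = i
    · simp [h]
    · simp only [h, if_false, f]
      rw [hb]
      field_simp
      ring

theorem slice_closed (ρ : ℝ) : IsClosed {p : ℝ × ℝ | ∃ b, |p.2 - f b p.1| ≤ ρ} := by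
  have h1 : IsClosed {q : (ℕ → Fin 2) × (ℝ × ℝ) | |q.2.2 - f q.1 q.2.1| ≤ ρ} := by
    apply isClosed_le _ continuous_const
    have : Continuous (fun q : (ℕ → Fin 2) × (ℝ × ℝ) => f q.1 q.2.1) :=
      f_cont.comp (continuous_fst.prodMk (continuous_fst.comp continuous_snd))
    exact ((continuous_snd.comp continuous_snd).sub this).abs
  have h2 := isClosedMap_snd_of_compactSpace (X := ℕ → Fin 2) (Y := ℝ × ℝ) _ h1
  convert h2 using 1
  ext p
  constructor
  · rintro ⟨b, hb⟩
    exact ⟨(b, p), hb, rfl⟩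
  · rintro ⟨⟨b, p'⟩, hb, rfl⟩
    exact ⟨b, hb⟩

/-- A measurable set that contains the neighbourhood of a part. -/
def box (n : ℕ) (i : Fin n) (ρ : ℝ) : Set (Fin n → ℝ) :=
  {x | |x i| ≤ 2 ∧ ∀ j, j ≠ i → ∃ b, |x j - f b (x i)| ≤ ρ}

theorem box_closed (n : ℕ) (i : Fin n) (ρ : ℝ) : IsClosed (box n i ρ) := by
  have e : box n i ρ = {x | |x i| ≤ 2} ∩ ⋂ j, {x | j ≠ i → ∃ b, |x j - f b (x i)| ≤ ρ} := by
    ext x; simp [box]
  rw [e]
  apply IsClosed.inter
  · exact isClosed_le (continuous_apply i).abs continuous_const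
  · apply isClosed_iInter
    intro j
    by_cases h : j = i
    · simp [h]
    · simp only [ne_eq, h, not_false_eq_true, forall_const]
      have hc : Continuous (fun x : Fin n → ℝ => (x i, x j)) :=
        (continuous_apply i).prodMk (continuous_apply j)
      exact (slice_closed ρ).preimage hc

theorem box_vol (d : ℕ) (i : Fin (d + 1)) {δ : ℝ} (hδ : 0 < δ) (hδ1 : δ < 1) :
    volume (box (d + 1) i (2 * δ)) ≤ ENNReal.ofReal (4 * (1000 / Real.log (1 / δ)) ^ d) := by
  have hL0 : 0 < Real.log (1 / δ) := Real.log_pos (by rw [lt_div_iff₀ hδ]; linarith)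
  have hmp := (volume_preserving_piFinSuccAbove (fun _ : Fin (d + 1) => ℝ) i).symm
  have h1 := hmp.measure_preimage (box_closed (d + 1) i (2 * δ)).measurableSet.nullMeasurableSet
  rw [← h1]
  set S : Set (ℝ × (Fin d → ℝ)) :=
    (MeasurableEquiv.piFinSuccAbove (fun _ : Fin (d + 1) => ℝ) i).symm ⁻¹' box (d + 1) i (2 * δ) with hS
  have hSm : MeasurableSet S :=
    (MeasurableEquiv.measurable _) (box_closed (d + 1) i (2 * δ)).measurableSet
  have hSe : ∀ t : ℝ, Prod.mk t ⁻¹' S ⊆ {x | |t| ≤ 2 ∧ x ∈ Set.pi univ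
      (fun _ : Fin d => {y : ℝ | ∃ b, |y - f b t| ≤ 2 * δ})} := by
    intro t x hx
    have hx' : (MeasurableEquiv.piFinSuccAbove (fun _ : Fin (d + 1) => ℝ) i).symm (t, x) ∈
      box (d + 1) i (2 * δ) := hx
    have e : (MeasurableEquiv.piFinSuccAbove (fun _ : Fin (d + 1) => ℝ) i).symm (t, x) =
      i.insertNth t x := rfl
    rw [e] at hx'
    obtain ⟨h2, h3⟩ := hx'
    refine ⟨by simpa using h2, ?_⟩
    intro j _
    have h4 := h3 (i.succAbove j) (Fin.succAbove_ne i j)
    simpa using h4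
  have hvol : (volume : Measure (ℝ × (Fin d → ℝ))) S = ∫⁻ t, volume (Prod.mk t ⁻¹' S) := by
    rw [Measure.volume_eq_prod, Measure.prod_apply hSm]
  rw [hvol]
  calc ∫⁻ t, volume (Prod.mk t ⁻¹' S)
      ≤ ∫⁻ t, (Icc (-2 : ℝ) 2).indicator
          (fun _ => ENNReal.ofReal (1000 / Real.log (1 / δ)) ^ d) t := by
        apply lintegral_mono
        intro t
        by_cases ht : t ∈ Icc (-2 : ℝ) 2
        · rw [indicator_of_mem ht]
          refine (measure_mono (hSe t)).trans ?_
          have h5 : {x : Fin d → ℝ | |t| ≤ 2 ∧ x ∈ Set.pi univ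
              (fun _ : Fin d => {y : ℝ | ∃ b, |y - f b t| ≤ 2 * δ})} ⊆ Set.pi univ
              (fun _ : Fin d => {y : ℝ | ∃ b, |y - f b t| ≤ 2 * δ}) := fun x hx => hx.2
          refine (measure_mono h5).trans ?_
          rw [volume_pi_pi]
          simp only [Finset.prod_const, Finset.card_univ, Fintype.card_fin]
          gcongr
          exact slice_small hδ hδ1 (abs_le.2 ht)
        · rw [indicator_of_notMem ht]
          have h6 : Prod.mk t ⁻¹' S = ∅ := by
            rw [eq_empty_iff_forall_notMem]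
            intro x hx
            exact ht (abs_le.1 (hSe t hx).1)
          simp [h6]
    _ = ENNReal.ofReal (1000 / Real.log (1 / δ)) ^ d * ENNReal.ofReal 4 := by
        rw [lintegral_indicator measurableSet_Icc, lintegral_const, Measure.restrict_apply_univ,
          Real.volume_Icc]
        norm_num
    _ ≤ _ := by
        rw [← ENNReal.ofReal_pow (by positivity), ← ENNReal.ofReal_mul (by positivity)]
        apply ENNReal.ofReal_le_ofReal
        linarith

theorem thick_sub {n : ℕ} (i : Fin n) {δ : ℝ} (hδ : 0 < δ) (hδ1 : δ < 1) :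
    (WithLp.toLp 2) ⁻¹' thickening δ (part i) ⊆ box n i (2 * δ) := by
  intro x hx
  rw [mem_preimage, mem_thickening_iff] at hx
  obtain ⟨y, ⟨⟨b, t⟩, ⟨-, ht⟩, rfl⟩, hxy⟩ := hx
  have hc : ∀ j, |x j - (pt i b t) j| < δ := by
    intro j
    have h1 := PiLp.norm_apply_le ((WithLp.toLp 2 x : E n) - pt i b t) j
    rw [← dist_eq_norm, Real.norm_eq_abs] at h1
    exact lt_of_le_of_lt h1 hxy
  have hi := hc i
  simp only [pt, if_true] at hi
  constructor
  · have h2 := abs_lt.1 hi
    rw [abs_le]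
    constructor <;> linarith [ht.1, ht.2]
  · intro j hj
    refine ⟨b j, ?_⟩
    have h3 := hc j
    simp only [pt, hj, if_false] at h3
    have h4 : x j - f (b j) (x i) = (x j - f (b j) t) - (x i - t) * V (b j) := by
      unfold f; ring
    rw [h4]
    have h5 : |(x i - t) * V (b j)| ≤ δ := by
      rw [abs_mul]
      have := V_abs (b j)
      have := abs_nonneg (V (b j))
      nlinarith [abs_nonneg (x i - t)]
    have h6 := abs_sub (x j - f (b j) t) ((x i - t) * V (b j))
    linarith

theorem K_vol (d : ℕ) {δ : ℝ} (hδ : 0 < δ) (hδ1 : δ < 1) :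
    volume (thickening δ (K (d + 1))) ≤
      ENNReal.ofReal ((d + 1) * 4 * 1000 ^ d / Real.log (1 / δ) ^ d) := by
  have hL0 : 0 < Real.log (1 / δ) := Real.log_pos (by rw [lt_div_iff₀ hδ]; linarith)
  have h1 : thickening δ (K (d + 1)) = ⋃ i, thickening δ (part i) := by
    unfold K
    rw [thickening_iUnion]
  rw [h1]
  refine (measure_iUnion_fintype_le _ _).trans ?_
  have h2 : ∀ i : Fin (d + 1), volume (thickening δ (part i)) ≤
      ENNReal.ofReal (4 * (1000 / Real.log (1 / δ)) ^ d) := by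
    intro i
    have h3 := (PiLp.volume_preserving_toLp (Fin (d + 1))).measure_preimage
      (isOpen_thickening (δ := δ) (E := part i)).measurableSet.nullMeasurableSet
    rw [← h3]
    exact (measure_mono (thick_sub i hδ hδ1)).trans (box_vol d i hδ hδ1)
  refine (Finset.sum_le_sum fun i _ => h2 i).trans ?_
  rw [Finset.sum_const, Finset.card_univ, Fintype.card_fin, nsmul_eq_mul]
  have e2 : ((d + 1 : ℕ) : ENNReal) = ENNReal.ofReal (d + 1) := by
    rw [← ENNReal.ofReal_natCast]; push_cast; rfl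
  rw [e2, ← ENNReal.ofReal_mul (by positivity)]
  apply ENNReal.ofReal_le_ofReal
  rw [div_pow]
  apply le_of_eq
  ring

end Pool.Agent.R251.Cmp
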